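import Pool.Agent.Helper26.Cc.Stm

/-! # The unitary group of a bounded self-adjoint operator: existence and uniqueness -/

set_option autoImplicit false

open MeasureTheory Filter Topology
open scoped ENNReal NNReal ComplexConjugate InnerProductSpace

namespace Pool.Agent.Helper16.Cc

open Pool.Agent.H5R2.NB Pool.Agent.Helper26.Rg Pool.Agent.Helper26.Cc

variable {ι : Type}

/-- `exp (-i t S)` -/
noncomputable def ex (S : L2 ι →L[ℂ] L2 ι) (t : ℝ) : L2 ι →L[ℂ] L2 ι :=
  NormedSpace.exp ((-Complex.I * (t : ℂ)) • S)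

lemma ex_real (S : L2 ι →L[ℂ] L2 ι) (t : ℝ) :
    ex S t = NormedSpace.exp (t • ((-Complex.I) • S)) := by
  unfold ex
  congr 1
  rw [mul_comm, mul_smul]
  exact Complex.coe_smul t _

lemma ex_zero (S : L2 ι →L[ℂ] L2 ι) : ex S 0 = 1 := by
  rw [ex_real, zero_smul, NormedSpace.exp_zero]

lemma ex_add (S : L2 ι →L[ℂ] L2 ι) (s t : ℝ) : ex S (s + t) = ex S s * ex S t := by
  let +nondep : NormedAlgebra ℚ (L2 ι →L[ℂ] L2 ι) := .restrictScalars ℚ ℂ _
  rw [ex_real, ex_real, ex_real, add_smul]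
  exact NormedSpace.exp_add_of_commute
    (((Commute.refl ((-Complex.I) • S)).smul_left s).smul_right t)

lemma ex_deriv (S : L2 ι →L[ℂ] L2 ι) (t : ℝ) :
    HasDerivAt (fun s => ex S s) (((-Complex.I) • S) * ex S t) t := by
  have h := hasDerivAt_exp_smul_const' (𝕂 := ℝ) ((-Complex.I) • S) t
  rw [ex_real]
  simp_rw [ex_real]
  exact h

lemma ex_comm (S : L2 ι →L[ℂ] L2 ι) (t : ℝ) : Commute S (ex S t) := by
  let +nondep : NormedAlgebra ℚ (L2 ι →L[ℂ] L2 ι) := .restrictScalars ℚ ℂ _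
  unfold ex
  exact ((Commute.refl S).smul_right _).exp_right

lemma ex_cont (S : L2 ι →L[ℂ] L2 ι) : Continuous fun t => ex S t :=
  continuous_iff_continuousAt.2 fun t => (ex_deriv S t).continuousAt

lemma ex_unitary {S : L2 ι →L[ℂ] L2 ι} (hS : IsSelfAdjoint S) (t : ℝ) :
    ex S t ∈ unitary (L2 ι →L[ℂ] L2 ι) := by
  have hsa : IsSelfAdjoint ((((-t : ℝ) : ℂ)) • S) :=
    IsSelfAdjoint.smul (Complex.conj_ofReal (-t)) hS
  have h : ex S t = ((selfAdjoint.expUnitary
      (⟨(((-t : ℝ) : ℂ)) • S, hsa⟩ : selfAdjoint (L2 ι →L[ℂ] L2 ι)) :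
      unitary (L2 ι →L[ℂ] L2 ι)) : L2 ι →L[ℂ] L2 ι) := by
    rw [selfAdjoint.expUnitary_coe, ex]
    congr 1
    rw [smul_smul]
    congr 1
    push_cast
    ring
  rw [h]
  exact Subtype.mem _

/-- the unitary group of `S` -/
noncomputable def gr (S : L2 ι →L[ℂ] L2 ι) (hS : IsSelfAdjoint S) : UG (L2 ι) where
  U := ex S
  zero' x := by rw [ex_zero]; rfl
  add' s t x := by rw [ex_add]; rfl
  norm' t x := ContinuousLinearMap.norm_map_of_mem_unitary (ex_unitary hS t) x
  cont' x := (ex_cont S).clm_apply continuous_const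

lemma ex_deriv' (S : L2 ι →L[ℂ] L2 ι) (x : L2 ι) (t : ℝ) :
    HasDerivAt (fun s => ex S s x) ((-Complex.I) • S (ex S t x)) t := by
  let A : (L2 ι →L[ℂ] L2 ι) →L[ℂ] L2 ι := ContinuousLinearMap.apply ℂ (L2 ι) x
  have h := (A.restrictScalars ℝ).hasFDerivAt.comp_hasDerivAt t (ex_deriv S t)
  exact h

lemma gen_gr (S : L2 ι →L[ℂ] L2 ι) (hS : IsSelfAdjoint S) : Gen (gr S hS) S := by
  intro x t j
  let L : L2 ι →L[ℂ] ℂ := lp.evalCLM ℂ (fun _ : ι => ℂ) 2 j
  have h := ((L.restrictScalars ℝ).hasFDerivAt.comp_hasDerivAt t (ex_deriv' S x t))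
  have e : (L.restrictScalars ℝ) ((-Complex.I) • S (ex S t x)) =
      -Complex.I * (S ((gr S hS).U t x)) j := by
    show L ((-Complex.I) • S (ex S t x)) = _
    rw [map_smul]
    rfl
  rw [e] at h
  exact h

/-- **GRP** -/
theorem grp : S_Grp := fun _ S hS => ⟨gr S hS, gen_gr S hS⟩

/-- the derivative of the orbit in norm -/
lemma gen_norm {W : UG (L2 ι)} {T : L2 ι →L[ℂ] L2 ι} (h : Gen W T) (x : L2 ι) (t : ℝ) :
    HasDerivAt (fun s => W.U s x) ((-Complex.I) • T (W.U t x)) t := by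
  have hc : Continuous fun s => (-Complex.I) • T (W.U s x) :=
    (T.continuous.comp (W.cont' x)).const_smul (-Complex.I)
  have hF : (fun s => W.U s x) =
      fun s => x + ∫ r in (0 : ℝ)..s, (-Complex.I) • T (W.U r x) := by
    funext s
    have hext : ∀ j : ι, (W.U s x) j =
        (x + ∫ r in (0 : ℝ)..s, (-Complex.I) • T (W.U r x) : L2 ι) j := by
      intro j
      let L : L2 ι →L[ℂ] ℂ := lp.evalCLM ℂ (fun _ : ι => ℂ) 2 j
      have h1 : L (∫ r in (0 : ℝ)..s, (-Complex.I) • T (W.U r x)) =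
          ∫ r in (0 : ℝ)..s, L ((-Complex.I) • T (W.U r x)) :=
        (L.intervalIntegral_comp_comm (hc.intervalIntegrable _ _)).symm
      have h2 : ∫ r in (0 : ℝ)..s, L ((-Complex.I) • T (W.U r x)) =
          (W.U s x) j - (W.U 0 x) j := by
        refine intervalIntegral.integral_eq_sub_of_hasDerivAt (f := fun r => (W.U r x) j)
          (fun r _ => ?_) ((L.continuous.comp hc).intervalIntegrable _ _)
        have e : L ((-Complex.I) • T (W.U r x)) = -Complex.I * (T (W.U r x)) j := by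
          rw [map_smul]; rfl
        rw [e]
        exact h x r j
      have h3 : (x + ∫ r in (0 : ℝ)..s, (-Complex.I) • T (W.U r x) : L2 ι) j =
          x j + L (∫ r in (0 : ℝ)..s, (-Complex.I) • T (W.U r x)) := rfl
      rw [h3, h1, h2, W.zero' x]
      ring
    exact lp.ext (funext hext)
  rw [hF]
  have := (intervalIntegral.integral_hasDerivAt_right (hc.intervalIntegrable 0 t)
    hc.stronglyMeasurable.stronglyMeasurableAtFilter hc.continuousAt).const_add x
  exact this

/-- uniqueness of the group with a given generator -/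
theorem gen_unique {W : UG (L2 ι)} {T : L2 ι →L[ℂ] L2 ι} (h : Gen W T) (t : ℝ) :
    W.U t = NormedSpace.exp ((-Complex.I * (t : ℂ)) • T) := by
  show W.U t = ex T t
  ext1 x
  have hG : ∀ s : ℝ, HasDerivAt (fun r => ex T (-r) (W.U r x)) 0 s := by
    intro s
    have h1 : HasDerivAt (fun r => ex T (-r)) ((Complex.I • T) * ex T (-s)) s := by
      have := hasDerivAt_exp_smul_const' (𝕂 := ℝ) (Complex.I • T) s
      have e : ∀ r : ℝ, ex T (-r) = NormedSpace.exp (r • (Complex.I • T)) := by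
        intro r
        rw [ex_real, neg_smul (Complex.I) T, smul_neg, neg_smul, neg_neg]
      rw [e]
      simp_rw [e]
      exact this
    let RR := ContinuousLinearMap.restrictScalarsL ℂ (L2 ι) (L2 ι) ℝ ℝ
    have h1' : HasDerivAt (fun r => RR (ex T (-r))) (RR ((Complex.I • T) * ex T (-s))) s :=
      RR.hasFDerivAt.comp_hasDerivAt s h1
    have h2 := h1'.clm_apply (gen_norm h x s)
    have e1 : ex T (-s) (T (W.U s x)) = T (ex T (-s) (W.U s x)) := by
      have := congrArg (fun A : L2 ι →L[ℂ] L2 ι => A (W.U s x)) (ex_comm T (-s)).eq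
      exact this.symm
    have e2 : RR ((Complex.I • T) * ex T (-s)) (W.U s x) +
        RR (ex T (-s)) ((-Complex.I) • T (W.U s x)) = 0 := by
      show Complex.I • T (ex T (-s) (W.U s x)) + ex T (-s) ((-Complex.I) • T (W.U s x)) = 0
      rw [map_smul, e1, neg_smul, add_neg_cancel]
    rw [e2] at h2
    exact h2
  have hconst : ex T (-t) (W.U t x) = ex T (-0) (W.U 0 x) :=
    is_const_of_deriv_eq_zero (fun s => (hG s).differentiableAt) (fun s => (hG s).deriv) t 0
  rw [neg_zero, ex_zero, W.zero' x] at hconst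
  have h3 : ex T t (ex T (-t) (W.U t x)) = ex T t x := by
    rw [hconst]; rfl
  have h4 : ex T t (ex T (-t) (W.U t x)) = W.U t x := by
    have : (ex T t * ex T (-t)) (W.U t x) = W.U t x := by
      rw [← ex_add, add_neg_cancel, ex_zero]; rfl
    exact this
  rw [← h4, h3]

end Pool.Agent.Helper16.Cc
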